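import Pool.Agent.H33R6.Defs

namespace Pool.Agent.H362R2.TU

open Finset Pool.Agent.H33R6

theorem D0_mod (r0 s0 r s : ℕ) (hs : 0 < s) (hsr : s < r) (hr : r % Mo = r0) (hs' : s % Mo = s0)
    (c : ℕ) (hc : ((r0 : ℤ) * s0 * (r0 - s0) * (r0 + s0)) % 10080 = c) : D0 r s % 10080 = c := by
  have hM : Mo = 10080 := rfl
  rw [hM] at hr hs'
  have e1 : ((D0 r s : ℕ) : ℤ) = (r : ℤ) * s * (r - s) * (r + s) := by
    unfold D0
    push_cast [Nat.cast_sub hsr.le]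
    ring
  have h1 : (r : ℤ) ≡ r0 [ZMOD 10080] := by
    have : ((r % 10080 : ℕ) : ℤ) = r0 := by rw [hr]
    rw [← this]
    push_cast
    exact (Int.mod_modEq _ _).symm
  have h2 : (s : ℤ) ≡ s0 [ZMOD 10080] := by
    have : ((s % 10080 : ℕ) : ℤ) = s0 := by rw [hs']
    rw [← this]
    push_cast
    exact (Int.mod_modEq _ _).symm
  have h3 : (r : ℤ) * s * (r - s) * (r + s) ≡ (r0 : ℤ) * s0 * (r0 - s0) * (r0 + s0) [ZMOD 10080] :=
    ((h1.mul h2).mul (h1.sub h2)).mul (h1.add h2)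
  have h4 : ((D0 r s : ℕ) : ℤ) % 10080 = c := by
    rw [e1, ← hc]
    exact h3
  omega

theorem res_of (j k r0 s0 c : ℕ) (hk : k = 1 ∨ k = 4) (hj : j % 4 ≠ 0) (hr : r0 < Mo) (hs : s0 < Mo)
    (hc : ((r0 : ℤ) * s0 * (r0 - s0) * (r0 + s0)) % 10080 = c)
    (hl : ∀ D : ℕ, D % 10080 = c → k ∣ D ∧ (D / k) % 8 = j % 8 ∧ ¬ 9 ∣ D ∧ ¬ 5 ∣ D ∧ ¬ 7 ∣ D) :
    Res j k r0 s0 :=
  ⟨hk, hj, hr, hs, fun r s h1 h2 h3 h4 => hl _ (D0_mod r0 s0 r s h1 h2 h3 h4 c hc)⟩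

theorem t_RES : S_RES := by
  intro j hj
  rcases hj with rfl | rfl | rfl | rfl | rfl | rfl
  · exact ⟨4, 33, 4, res_of 1 4 33 4 516 (by norm_num) (by norm_num) (by norm_num [Mo])
      (by norm_num [Mo]) (by norm_num) (fun D h => by omega)⟩
  · exact ⟨1, 23, 6, res_of 2 1 23 6 7554 (by norm_num) (by norm_num) (by norm_num [Mo])
      (by norm_num [Mo]) (by norm_num) (fun D h => by omega)⟩
  · exact ⟨4, 41, 12, res_of 3 4 41 12 204 (by norm_num) (by norm_num) (by norm_num [Mo])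
      (by norm_num [Mo]) (by norm_num) (fun D h => by omega)⟩
  · exact ⟨4, 12, 1, res_of 5 4 12 1 1716 (by norm_num) (by norm_num) (by norm_num [Mo])
      (by norm_num [Mo]) (by norm_num) (fun D h => by omega)⟩
  · exact ⟨1, 2, 1, res_of 6 1 2 1 6 (by norm_num) (by norm_num) (by norm_num [Mo])
      (by norm_num [Mo]) (by norm_num) (fun D h => by omega)⟩
  · exact ⟨4, 12, 11, res_of 7 4 12 11 3036 (by norm_num) (by norm_num) (by norm_num [Mo])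
      (by norm_num [Mo]) (by norm_num) (fun D h => by omega)⟩

end Pool.Agent.H362R2.TU
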